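import Pool.Agent.Lib.MP_688fd0_co.ASY.TB.Iface
import Pool.Agent.Lib.MP_688fd0_co.ASY.H91.Cross

/-!
TB-LADEX, first part (helper32): the sets of a ladder in the tube: cuts, lower parts, regions, positions.
-/

set_option autoImplicit false

namespace Pool.Agent.Lib.MP_688fd0_co.ASY.H32

open Classical
open Pool.Agent.Lib.MP_688fd0_co.LP (IsP Conn Cyc Symm cay comp)
open Pool.Agent.Lib.MP_688fd0_co.LIN
open Pool.Agent.Lib.MP_688fd0_co.ASY.H85 (Ladder Mid)
open Pool.Agent.Lib.MP_688fd0_co.ASY.H91 (mem_sl dist_adj)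

universe u

/-- the last vertex of height at most `P` on a walk -/
theorem last_le {V : Type*} {G : SimpleGraph V} (f : V → ℕ) (hf : ∀ u v, G.Adj u v → f v ≤ f u + 1)
    {F : Set V} {u x : V} {P : ℕ} (h : Conn G F u x) (hu : f u ≤ P) (hx : P ≤ f x) :
    ∃ y, f y = P ∧ Conn G (F ∩ {v | P ≤ f v}) y x := by
  obtain ⟨huF, hv⟩ := h
  induction hv with
  | refl =>
    exact ⟨u, le_antisymm hu hx, Conn.refl ⟨huF, hx⟩⟩
  | @tail b x hub hadj ih =>
    obtain ⟨hadj, hxF⟩ := hadj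
    by_cases hb : P ≤ f b
    · obtain ⟨y, hy, hc⟩ := ih hb
      exact ⟨y, hy, hc.tail hadj ⟨hxF, hx⟩⟩
    · have h1 := hf b x hadj
      exact ⟨x, by omega, Conn.refl ⟨hxF, hx⟩⟩

variable {V : Type u} [Fintype V] {G : SimpleGraph V} {γ : ℕ → V} {w D : ℕ}

/-- the part of `E` that can be reached from height `P` avoiding `X` -/
noncomputable def Lo (G : SimpleGraph V) (γ : ℕ → V) (P : ℕ) (E X : Finset V) : Finset V :=
  E.filter (fun x => ∃ y, G.dist (γ 0) y = P ∧ Conn G ((↑E : Set V) \ (↑X : Set V)) y x)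

theorem mem_Lo {P : ℕ} {E X : Finset V} {x : V} :
    x ∈ Lo G γ P E X ↔ ∃ y, G.dist (γ 0) y = P ∧ Conn G ((↑E : Set V) \ (↑X : Set V)) y x := by
  rw [Lo, Finset.mem_filter]
  constructor
  · exact fun h => h.2
  · rintro ⟨y, hy, hc⟩
    exact ⟨hc.right_mem.1, y, hy, hc⟩

theorem Lo_sub {P : ℕ} {E X : Finset V} : Lo G γ P E X ⊆ E := Finset.filter_subset _ _

theorem Lo_not_mem {P : ℕ} {E X : Finset V} {x : V} (h : x ∈ Lo G γ P E X) : x ∉ X := by
  obtain ⟨y, _, hc⟩ := mem_Lo.1 h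
  exact fun h1 => hc.right_mem.2 (Finset.mem_coe.2 h1)

theorem Lo_adj {P : ℕ} {E X : Finset V} {x u : V} (h : x ∈ Lo G γ P E X) (hu : u ∈ E) (hX : u ∉ X)
    (hadj : G.Adj x u) : u ∈ Lo G γ P E X := by
  obtain ⟨y, hy, hc⟩ := mem_Lo.1 h
  exact mem_Lo.2 ⟨y, hy, hc.tail hadj ⟨Finset.mem_coe.2 hu, fun h => hX (Finset.mem_coe.1 h)⟩⟩

theorem Lo_mono {P b : ℕ} {E X X' : Finset V} (h1 : ∀ x ∈ Lo G γ P E X, G.dist (γ 0) x < b)
    (h2 : ∀ v ∈ X', b ≤ G.dist (γ 0) v) : Lo G γ P E X ⊆ Lo G γ P E X' := by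
  intro x hx
  obtain ⟨y, hy, hc⟩ := mem_Lo.1 hx
  refine mem_Lo.2 ⟨y, hy, hc.in_superset ?_⟩
  intro v hv
  have hv' : Conn G ((↑E : Set V) \ (↑X : Set V)) y v := hv
  have h3 := h1 v (mem_Lo.2 ⟨y, hy, hv'⟩)
  refine ⟨hv'.right_mem.1, fun h4 => ?_⟩
  have := h2 v (Finset.mem_coe.1 h4)
  omega

/-- (a) the lower part of a cut stays below the cut -/
theorem Lo_lt {r : ℕ} (hO : OneDim G r w D γ) {P Q a b : ℕ} {X : Finset V} (hP : P ≤ a) (hab : a ≤ b)
    (hb : b ≤ Q) (hX : IsCut G γ w D a b X) {x : V} (hx : x ∈ Lo G γ P (sl G γ w D P Q) X) :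
    G.dist (γ 0) x < b := by
  obtain ⟨y, hy, hc⟩ := mem_Lo.1 hx
  by_contra hlt
  obtain ⟨x', y', h1, h2, h3, _, _⟩ := H91.cross V G r w D γ hO P Q a b (↑X) y x hP hab hb hc
    (by omega) (by omega)
  exact hX.2 x' y' h1 h2 h3

/-- (b) everything well below the cut is in the lower part -/
theorem mem_Lo_of_lt {r : ℕ} (hO : OneDim G r w D γ) (hN : NearStatement.{u}) {P Q a : ℕ} {X : Finset V}
    (hP : 100 * w ≤ P) (hQ : Q + 100 * w ≤ D) (haQ : a ≤ Q) (hX : ∀ v ∈ X, a ≤ G.dist (γ 0) v)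
    {x : V} (hx : x ∈ om G γ w D) (h1 : P ≤ G.dist (γ 0) x) (h2 : G.dist (γ 0) x + w < a) :
    x ∈ Lo G γ P (sl G γ w D P Q) X := by
  obtain ⟨_, n2, n3, _, _, n6, _⟩ := hN V G r w D γ hO
  have hc : G.Connected := hO.vt.conn
  have hg : γ P ∈ om G γ w D := n3 P (by omega) (by omega)
  have hgP : G.dist (γ 0) (γ P) = P := n2 P (by omega)
  have h3 := n6 P (G.dist (γ 0) x) (γ P) (mem_sl.2 ⟨hg, by omega, by omega⟩) x
    (mem_sl.2 ⟨hx, by omega, by omega⟩)
  obtain ⟨y, hy, hcy⟩ := last_le (fun v => G.dist (γ 0) v)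
    (fun u v huv => (dist_adj hc (γ 0) huv).2) h3 (by omega) h1
  refine mem_Lo.2 ⟨y, hy, hcy.mono ?_⟩
  rintro v ⟨hv1, hv2⟩
  rw [Finset.mem_coe, mem_sl] at hv1
  have hv3 : P ≤ G.dist (γ 0) v := hv2
  refine ⟨Finset.mem_coe.2 (mem_sl.2 ⟨hv1.1, hv3, by omega⟩), fun h4 => ?_⟩
  have := hX v (Finset.mem_coe.1 h4)
  omega

/-- everything about the sets of the ladder, for `S i` a cut of the slab `[a_i, a_i + c]`,
`a_i = P + i L + 20 w`, `L = c + 40 w`. -/
structure Sets (G : SimpleGraph V) (γ : ℕ → V) (w D r P M L c : ℕ) (S : ℕ → Finset V) : Prop where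
  one : OneDim G r w D γ
  hM : 1 ≤ M
  hP : 100 * w ≤ P
  hD : P + (M + 1) * L + 100 * w ≤ D
  hL : L = c + 40 * w
  cut : ∀ i ≤ M, IsCut G γ w D (P + i * L + 20 * w) (P + i * L + 20 * w + c) (S i)

namespace Sets

variable {r P M L c : ℕ} {S : ℕ → Finset V}

/-- the big slab -/
noncomputable abbrev E (G : SimpleGraph V) (γ : ℕ → V) (w D P M L : ℕ) : Finset V :=
  sl G γ w D P (P + (M + 1) * L)

/-- the regions -/
noncomputable abbrev R (G : SimpleGraph V) (γ : ℕ → V) (w D P M L : ℕ) (S : ℕ → Finset V) (i : ℕ) :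
    Finset V :=
  Lo G γ P (E G γ w D P M L) (S (i + 1)) \ (Lo G γ P (E G γ w D P M L) (S i) ∪ S i)

theorem le_mul {i j : ℕ} (h : i ≤ j) : i * L ≤ j * L := Nat.mul_le_mul_right L h

theorem posS (hS : Sets G γ w D r P M L c S) {i : ℕ} (hi : i ≤ M) {x : V} (hx : x ∈ S i) :
    x ∈ om G γ w D ∧ P + i * L + 20 * w ≤ G.dist (γ 0) x ∧ G.dist (γ 0) x ≤ P + i * L + 20 * w + c := by
  exact mem_sl.1 ((hS.cut i hi).1 hx)

theorem bound (hS : Sets G γ w D r P M L c S) {i : ℕ} (hi : i ≤ M) :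
    P + i * L + 20 * w + c + 20 * w ≤ P + (M + 1) * L := by
  have h1 : (i + 1) * L ≤ (M + 1) * L := le_mul (by omega)
  have h2 : (i + 1) * L = i * L + L := by ring
  have := hS.hL
  omega

theorem Lo_lt (hS : Sets G γ w D r P M L c S) {i : ℕ} (hi : i ≤ M) {x : V}
    (hx : x ∈ Lo G γ P (E G γ w D P M L) (S i)) : G.dist (γ 0) x < P + i * L + 20 * w + c := by
  have := hS.bound hi
  exact H32.Lo_lt hS.one (by omega) (by omega) (by omega) (hS.cut i hi) hx

theorem mem_Lo (hS : Sets G γ w D r P M L c S) (hN : NearStatement.{u}) {i : ℕ} (hi : i ≤ M) {x : V}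
    (hx : x ∈ om G γ w D) (h1 : P ≤ G.dist (γ 0) x) (h2 : G.dist (γ 0) x + w < P + i * L + 20 * w) :
    x ∈ Lo G γ P (E G γ w D P M L) (S i) := by
  have := hS.bound hi
  exact mem_Lo_of_lt hS.one hN hS.hP (by have := hS.hD; omega) (a := P + i * L + 20 * w) (by omega)
    (fun v hv => (hS.posS hi hv).2.1) hx h1 h2

theorem Lo_succ (hS : Sets G γ w D r P M L c S) {i : ℕ} (hi : i + 1 ≤ M) :
    Lo G γ P (E G γ w D P M L) (S i) ⊆ Lo G γ P (E G γ w D P M L) (S (i + 1)) := by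
  refine Lo_mono (b := P + i * L + 20 * w + c) (fun x hx => hS.Lo_lt (by omega) hx) ?_
  intro v hv
  have h1 := (hS.posS hi hv).2.1
  have h2 : (i + 1) * L = i * L + L := by ring
  have := hS.hL
  omega

theorem S_succ (hS : Sets G γ w D r P M L c S) (hN : NearStatement.{u}) {i : ℕ} (hi : i + 1 ≤ M) :
    S i ⊆ Lo G γ P (E G γ w D P M L) (S (i + 1)) := by
  intro x hx
  obtain ⟨h1, h2, h3⟩ := hS.posS (i := i) (by omega) hx
  have h4 : (i + 1) * L = i * L + L := by ring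
  have h5 := hS.hL
  have hw : 1 ≤ w := by have := hS.one.w_eq; omega
  exact hS.mem_Lo hN hi h1 (by omega) (by omega)

theorem Lo_le (hS : Sets G γ w D r P M L c S) {i j : ℕ} (hij : i ≤ j) (hj : j ≤ M) :
    Lo G γ P (E G γ w D P M L) (S i) ⊆ Lo G γ P (E G γ w D P M L) (S j) := by
  induction j, hij using Nat.le_induction with
  | base => exact subset_rfl
  | succ j hij ih => exact (ih (by omega)).trans (hS.Lo_succ hj)

theorem S_lt (hS : Sets G γ w D r P M L c S) (hN : NearStatement.{u}) {i j : ℕ} (hij : i < j) (hj : j ≤ M) :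
    S i ⊆ Lo G γ P (E G γ w D P M L) (S j) :=
  (hS.S_succ hN (i := i) (by omega)).trans (hS.Lo_le (i := i + 1) hij hj)

theorem disS (hS : Sets G γ w D r P M L c S) (hN : NearStatement.{u}) {i j : ℕ} (hi : i ≤ M) (hj : j ≤ M)
    (hij : i ≠ j) : Disjoint (S i) (S j) := by
  rw [Finset.disjoint_left]
  intro x hxi hxj
  rcases lt_or_gt_of_ne hij with h | h
  · exact Lo_not_mem (hS.S_lt hN h hj hxi) hxj
  · exact Lo_not_mem (hS.S_lt hN h hi hxj) hxi

theorem mem_R {i : ℕ} {x : V} : x ∈ R G γ w D P M L S i ↔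
    x ∈ Lo G γ P (E G γ w D P M L) (S (i + 1)) ∧ x ∉ Lo G γ P (E G γ w D P M L) (S i) ∧ x ∉ S i := by
  simp only [Finset.mem_sdiff, Finset.mem_union, not_or]

theorem disR (hS : Sets G γ w D r P M L c S) {i j : ℕ} (hi : i < M) (hj : j < M)
    (hij : i ≠ j) : Disjoint (R G γ w D P M L S i) (R G γ w D P M L S j) := by
  rw [Finset.disjoint_left]
  intro x hxi hxj
  rw [mem_R] at hxi hxj
  rcases lt_or_gt_of_ne hij with h | h
  · exact hxj.2.1 (hS.Lo_le (i := i + 1) h (by omega) hxi.1)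
  · exact hxi.2.1 (hS.Lo_le (i := j + 1) h (by omega) hxj.1)

theorem disSR (hS : Sets G γ w D r P M L c S) (hN : NearStatement.{u}) {i j : ℕ} (hi : i ≤ M) (hj : j < M) :
    Disjoint (S i) (R G γ w D P M L S j) := by
  rw [Finset.disjoint_left]
  intro x hxi hxj
  rw [mem_R] at hxj
  rcases lt_trichotomy i j with h | h | h
  · exact hxj.2.1 (hS.S_lt hN h (by omega) hxi)
  · exact hxj.2.2 (h ▸ hxi)
  · exact Lo_not_mem (hS.Lo_le (i := j + 1) h hi hxj.1) hxi

/-- the window of the region `i` -/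
noncomputable abbrev Wi (G : SimpleGraph V) (γ : ℕ → V) (w D P L : ℕ) (i : ℕ) : Finset V :=
  sl G γ w D (P + (i + 1) * L - w) (P + (i + 1) * L + w)

theorem WR (hS : Sets G γ w D r P M L c S) (hN : NearStatement.{u}) {i : ℕ} (hi : i < M) :
    Wi G γ w D P L i ⊆ R G γ w D P M L S i := by
  intro x hx
  obtain ⟨h1, h2, h3⟩ := mem_sl.1 hx
  have h4 : (i + 1) * L = i * L + L := by ring
  have h5 := hS.hL
  have hw : 1 ≤ w := by have := hS.one.w_eq; omega
  rw [mem_R]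
  refine ⟨hS.mem_Lo hN (i := i + 1) (by omega) h1 (by omega) (by omega), fun h => ?_, fun h => ?_⟩
  · have := hS.Lo_lt (i := i) (by omega) h
    omega
  · have := (hS.posS (i := i) (by omega) h).2.2
    omega

theorem S_sub_E (hS : Sets G γ w D r P M L c S) {i : ℕ} (hi : i ≤ M) : S i ⊆ E G γ w D P M L := by
  intro x hx
  obtain ⟨h1, h2, h3⟩ := hS.posS hi hx
  have := hS.bound hi
  exact mem_sl.2 ⟨h1, by omega, by omega⟩

theorem posR (hS : Sets G γ w D r P M L c S) {v : V} (hv : Mid S (R G γ w D P M L S) 0 M v) :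
    v ∈ om G γ w D ∧ P ≤ G.dist (γ 0) v ∧ G.dist (γ 0) v ≤ P + (M + 1) * L := by
  rcases hv with ⟨k, _, hk, hv⟩ | ⟨k, _, hk, hv⟩
  · rw [mem_R] at hv
    exact mem_sl.1 (Lo_sub hv.1)
  · exact mem_sl.1 (hS.S_sub_E (by omega) hv)

theorem cover (hS : Sets G γ w D r P M L c S) (hN : NearStatement.{u}) {v : V} (hv : v ∈ om G γ w D)
    (h1 : P + L ≤ G.dist (γ 0) v) (h2 : G.dist (γ 0) v + 2 * w ≤ P + M * L) :
    Mid S (R G γ w D P M L S) 0 M v := by
  have h5 := hS.hL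
  have hw : 1 ≤ w := by have := hS.one.w_eq; omega
  have hM := hS.hM
  have hex : ∃ k, v ∈ Lo G γ P (E G γ w D P M L) (S k) :=
    ⟨M, hS.mem_Lo hN le_rfl hv (by omega) (by omega)⟩
  have hk := Nat.find_spec hex
  have hkM : Nat.find hex ≤ M := Nat.find_min' hex (hS.mem_Lo hN le_rfl hv (by omega) (by omega))
  have h0 : v ∉ Lo G γ P (E G γ w D P M L) (S 0) := by
    intro h
    have := hS.Lo_lt (i := 0) (by omega) h
    omega
  have hS0 : v ∉ S 0 := by
    intro h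
    have := (hS.posS (i := 0) (by omega) h).2.2
    omega
  obtain ⟨k, hk'⟩ : ∃ k, Nat.find hex = k + 1 := by
    rcases Nat.eq_zero_or_pos (Nat.find hex) with h | h
    · rw [h] at hk
      exact absurd hk h0
    · exact ⟨Nat.find hex - 1, by omega⟩
  have hmin : v ∉ Lo G γ P (E G γ w D P M L) (S k) := Nat.find_min hex (by omega)
  rw [hk'] at hk hkM
  by_cases hSk : v ∈ S k
  · refine Or.inr ⟨k, ?_, by omega, hSk⟩
    rcases Nat.eq_zero_or_pos k with h | h
    · subst h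
      exact absurd hSk hS0
    · exact h
  · exact Or.inl ⟨k, Nat.zero_le _, by omega, mem_R.2 ⟨hk, hmin, hSk⟩⟩

theorem mid_or (hM : 1 ≤ M) {k : ℕ} (hk : k ≤ M) {u : V} (hu : u ∈ S k) :
    Mid S (R G γ w D P M L S) 0 M u ∨ u ∈ S 0 ∨ u ∈ S M := by
  rcases Nat.eq_zero_or_pos k with h | h
  · subst h
    exact Or.inr (Or.inl hu)
  · rcases Nat.lt_or_ge k M with h' | h'
    · exact Or.inl (Or.inr ⟨k, h, h', hu⟩)
    · have : k = M := by omega
      subst this
      exact Or.inr (Or.inr hu)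

theorem closed (hS : Sets G γ w D r P M L c S) (hN : NearStatement.{u}) {v : V}
    (hv : Mid S (R G γ w D P M L S) 0 M v) {x : V} (hadj : G.Adj v x) :
    Mid S (R G γ w D P M L S) 0 M x ∨ x ∈ S 0 ∨ x ∈ S M := by
  have h5 := hS.hL
  have hw : 1 ≤ w := by have := hS.one.w_eq; omega
  have hM := hS.hM
  have hD := hS.hD
  have hP := hS.hP
  have hc : G.Connected := hS.one.vt.conn
  obtain ⟨_, _, _, _, n5, _, _⟩ := hN V G r w D γ hS.one
  have hpos := hS.posR hv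
  have hx := n5 P (P + (M + 1) * L) (by omega) (by omega) v (mem_sl.2 hpos) x hadj
  have hstep := dist_adj hc (γ 0) hadj
  rcases hv with ⟨k, _, hk, hv⟩ | ⟨k, hk0, hk, hv⟩
  · rw [mem_R] at hv
    obtain ⟨hv1, hv2, hv3⟩ := hv
    have e1 : P + k * L + 20 * w ≤ G.dist (γ 0) v + w := by
      by_contra hlt
      exact hv2 (hS.mem_Lo hN (by omega) hpos.1 hpos.2.1 (by omega))
    have e2 := hS.Lo_lt (i := k + 1) (by omega) hv1
    have e3 := hS.bound (i := k + 1) (by omega)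
    have hxE : x ∈ E G γ w D P M L := mem_sl.2 ⟨hx.1, by omega, by omega⟩
    have hxLo : x ∉ Lo G γ P (E G γ w D P M L) (S k) := by
      intro h
      exact hv2 (Lo_adj h (mem_sl.2 hpos) hv3 hadj.symm)
    by_cases hxS : x ∈ S k
    · exact mid_or hM (by omega) hxS
    by_cases hxL : x ∈ Lo G γ P (E G γ w D P M L) (S (k + 1))
    · exact Or.inl (Or.inl ⟨k, Nat.zero_le _, hk, mem_R.2 ⟨hxL, hxLo, hxS⟩⟩)
    · by_cases hxS' : x ∈ S (k + 1)
      · exact mid_or hM (by omega) hxS'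
      · exact absurd (Lo_adj hv1 hxE hxS' hadj) hxL
  · obtain ⟨p1, p2, p3⟩ := hS.posS (i := k) (by omega) hv
    have e3 := hS.bound (i := k) (by omega)
    have hxE : x ∈ E G γ w D P M L := mem_sl.2 ⟨hx.1, by omega, by omega⟩
    by_cases hxL : x ∈ Lo G γ P (E G γ w D P M L) (S k)
    · obtain ⟨j, rfl⟩ : ∃ j, k = j + 1 := ⟨k - 1, by omega⟩
      have h4 : (j + 1) * L = j * L + L := by ring
      refine Or.inl (Or.inl ⟨j, Nat.zero_le _, by omega, mem_R.2 ⟨hxL, fun h => ?_, fun h => ?_⟩⟩)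
      · have := hS.Lo_lt (i := j) (by omega) h
        omega
      · have := (hS.posS (i := j) (by omega) h).2.2
        omega
    · by_cases hxS : x ∈ S k
      · exact mid_or hM (by omega) hxS
      · have hv' := hS.S_succ hN (i := k) (by omega) hv
        have hxS' : x ∉ S (k + 1) := by
          intro h
          have := (hS.posS (i := k + 1) (by omega) h).2.1
          have h4 : (k + 1) * L = k * L + L := by ring
          omega
        exact Or.inl (Or.inl ⟨k, Nat.zero_le _, hk, mem_R.2 ⟨Lo_adj hv' hxE hxS' hadj, hxL, hxS⟩⟩)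

end Sets

/-- choice of the cuts -/
theorem exists_sets {r B q : ℕ} (hO : OneDim G r w D γ) (hU : UCut G γ w D B q) {P M : ℕ} (hM : 1 ≤ M)
    (hP : 100 * w ≤ P) (hD : P + (M + 1) * ((60 * B + 200) * w) + 100 * w ≤ D) :
    ∃ S : ℕ → Finset V, Sets G γ w D r P M ((60 * B + 200) * w) ((60 * B + 160) * w) S ∧
      ∀ i ≤ M, (S i).card = q := by
  set L := (60 * B + 200) * w with hLdef
  set c := (60 * B + 160) * w with hcdef
  have hL : L = c + 40 * w := by rw [hLdef, hcdef]; ring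
  have key : ∀ i, i ≤ M → ∃ X, IsCut G γ w D (P + i * L + 20 * w) (P + i * L + 20 * w + c) X ∧ X.card = q := by
    intro i hi
    have h1 : (i + 1) * L ≤ (M + 1) * L := Nat.mul_le_mul_right L (by omega)
    have h2 : (i + 1) * L = i * L + L := by ring
    exact hU.high _ _ (by omega) (by omega) (by omega)
  choose! S hS1 hS2 using key
  exact ⟨S, ⟨hO, hM, hP, hD, hL, hS1⟩, hS2⟩

end Pool.Agent.Lib.MP_688fd0_co.ASY.H32
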