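import Pool.Agent.Lib.MP_688fd0_co.ASY.H32.LadSets
import Pool.Agent.Lib.MP_688fd0_co.ASY.H61.LadT

/-!
TB-LADEX, assembly (helper32; the paths are helper61's `ladT`).
-/

set_option autoImplicit false

namespace Pool.Agent.Lib.MP_688fd0_co.ASY.H32

open Classical
open Pool.Agent.Lib.MP_688fd0_co.LP (IsP Conn Cyc Symm cay comp)
open Pool.Agent.Lib.MP_688fd0_co.LIN
open Pool.Agent.Lib.MP_688fd0_co.ASY.H85 (Ladder Mid)
open Pool.Agent.Lib.MP_688fd0_co.ASY.H91 (mem_sl dist_adj)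

universe u

theorem lo_eq {V : Type u} [Fintype V] (G : SimpleGraph V) (γ : ℕ → V) (w D P Q : ℕ) (X : Finset V) :
    H61.Lo G γ w D P Q X = Lo G γ P (sl G γ w D P Q) X := rfl

/-- TB-LADEX: ladders exist in the tube. -/
theorem ladex (hN : NearStatement.{u}) : LadexStatement.{u} := by
  intro V _ G r w D γ hO B q hU P M hM hP hD
  obtain ⟨S, hS, hq⟩ := exists_sets hO hU hM hP hD
  set L := (60 * B + 200) * w with hLdef
  set c := (60 * B + 160) * w with hcdef
  have hL : L = c + 40 * w := hS.hL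
  have hw : 1 ≤ w := by have := hO.w_eq; omega
  have hT : ∀ i, i < M → ∃ T : V → List V,
      (∀ x ∈ S i, IsP G (T x) ∧ (T x).head? = some x ∧ (∃ y ∈ S (i + 1), (T x).getLast? = some y) ∧
        ∀ v ∈ (T x).tail.dropLast, v ∈ Sets.R G γ w D P M L S i) ∧
      (∀ x ∈ S i, ∀ x' ∈ S i, x ≠ x' → List.Disjoint (T x) (T x')) ∧
      ∀ x ∈ S i, ∀ x' ∈ S i, ∃ y ∈ T x, ∃ y' ∈ T x',
        Conn G (↑(Sets.Wi G γ w D P L i) : Set V) y y' := by
    intro i hi
    have h1 : (i + 1) * L = i * L + L := by ring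
    have h2 := hS.bound (i := i + 1) (by omega)
    obtain ⟨T, hT1, hT2, hT3⟩ := H61.ladT hN hO hU (P := P) (Q := P + (M + 1) * L)
      (hS.cut i (by omega)) (hS.cut (i + 1) (by omega)) (hq i (by omega)) (by omega) (by omega) (by omega)
      (by omega) (by omega) (by omega) (by omega) (hS.S_succ hN (i := i) (by omega))
    exact ⟨T, hT1, hT2, hT3 (P + (i + 1) * L) (by omega) (by omega)⟩
  choose! T hT1 hT2 hT3 using hT
  refine ⟨S, Sets.R G γ w D P M L S, Sets.Wi G γ w D P L, T, ?_⟩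
  refine ⟨⟨hq, fun i hi j hj hij => hS.disS hN hi hj hij, fun i hi j hj hij => hS.disR hi hj hij,
    fun i hi j hj => hS.disSR hN hi hj, fun i hi => hS.WR hN hi, hT1, hT2, hT3⟩, ?_, ?_, ?_, ?_⟩
  · intro i hi x hx
    obtain ⟨h1, h2, h3⟩ := hS.posS hi hx
    have h4 : (i + 1) * L = i * L + L := by ring
    exact ⟨h1, h2, by omega⟩
  · intro v hv
    exact hS.posR hv
  · intro v hv h1 h2
    exact hS.cover hN hv h1 h2
  · intro v hv u hadj
    exact hS.closed hN hv hadj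

end Pool.Agent.Lib.MP_688fd0_co.ASY.H32
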